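import Pool.Agent.P.MP_7895ba_al.Homog

/-! Coset spaces of pro-Lie groups modulo almost connected subgroups are complete. -/

namespace Pool.Agent.Results.MP_7895ba_al.HomogeneousComplete

/-- Let `G` be a closed subgroup of a product of finite-dimensional real Lie groups and let `N` be
any subgroup of `G` (normal or not, closed or not) with `N / N₀` compact. Then every filter on the
coset space `G / N` that is Cauchy for the uniform structure with entourages
`{(p, q) | q ∈ U • p}`, `U` an identity neighbourhood of `G`, converges. -/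
theorem result :
    ∀ (ι : Type) (E : ι → Type) (H : ι → Type)
      [∀ i, NormedAddCommGroup (E i)] [∀ i, NormedSpace ℝ (E i)]
      [∀ i, FiniteDimensional ℝ (E i)]
      [∀ i, TopologicalSpace (H i)] [∀ i, ChartedSpace (E i) (H i)] [∀ i, Group (H i)]
      [∀ i, LieGroup (modelWithCornersSelf ℝ (E i)) ((⊤ : ℕ∞) : WithTop ℕ∞) (H i)]
      [∀ i, IsTopologicalGroup (H i)]
      (G : Subgroup (∀ i, H i)), IsClosed (G : Set (∀ i, H i)) →
      ∀ N : Subgroup G, CompactSpace (N ⧸ Subgroup.connectedComponentOfOne N) →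
      ∀ F : Filter (G ⧸ N), F.NeBot →
        (∀ U ∈ nhds (1 : G), ∃ A ∈ F, ∀ p ∈ A, ∀ q ∈ A, ∃ u ∈ U, q = u • p) →
        ∃ q : G ⧸ N, F ≤ nhds q := by
  intro ι E H _ _ _ _ _ _ _ _ G hG N hN F hF hc
  exact Pool.Agent.P.MP_7895ba_al.cosetComplete_of_almostConnected
    (fun i => (Pool.Agent.P.MP_7895ba_al.nonempty_expData_of_lieGroup (E i) (H i)).some)
    G hG N F hF hc

/-- Specialisation to normal `N`: left-Cauchy filters of the quotient group `G / N` converge. -/
theorem normal_case (ι : Type) (E : ι → Type) (H : ι → Type)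
    [∀ i, NormedAddCommGroup (E i)] [∀ i, NormedSpace ℝ (E i)]
    [∀ i, FiniteDimensional ℝ (E i)]
    [∀ i, TopologicalSpace (H i)] [∀ i, ChartedSpace (E i) (H i)] [∀ i, Group (H i)]
    [∀ i, LieGroup (modelWithCornersSelf ℝ (E i)) ((⊤ : ℕ∞) : WithTop ℕ∞) (H i)]
    [∀ i, IsTopologicalGroup (H i)]
    (G : Subgroup (∀ i, H i)) (hG : IsClosed (G : Set (∀ i, H i)))
    (N : Subgroup G) [N.Normal] (hN : CompactSpace (N ⧸ Subgroup.connectedComponentOfOne N))
    (F : Filter (G ⧸ N)) (hF : F.NeBot)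
    (hc : ∀ U ∈ nhds (1 : G ⧸ N), ∃ A ∈ F, ∀ x ∈ A, ∀ y ∈ A, x⁻¹ * y ∈ U) :
    ∃ q : G ⧸ N, F ≤ nhds q := by
  obtain ⟨q, hq⟩ := result ι E H G hG N hN (F.map Inv.inv) inferInstance (by
    intro U hU
    have h1 : (QuotientGroup.mk : G → G ⧸ N) '' U ∈ nhds (1 : G ⧸ N) :=
      QuotientGroup.isOpenMap_coe.image_mem_nhds hU
    obtain ⟨A, hA, h2⟩ := hc _ h1
    refine ⟨Inv.inv '' A, Filter.image_mem_map hA, ?_⟩
    rintro _ ⟨x, hx, rfl⟩ _ ⟨y, hy, rfl⟩
    obtain ⟨u, hu, h3⟩ := h2 y hy x hx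
    refine ⟨u, hu, ?_⟩
    obtain ⟨a, ha⟩ := QuotientGroup.mk_surjective x⁻¹
    have h4 : u • x⁻¹ = (u : G ⧸ N) * x⁻¹ := by
      rw [← ha]
      rfl
    rw [h4, h3, mul_inv_cancel_right])
  refine ⟨q⁻¹, ?_⟩
  have h5 := (continuous_inv.tendsto q).comp hq
  simpa [Filter.Tendsto, Function.comp_def] using h5

/-- The question itself: `G / G₀` is complete. -/
theorem component_case (ι : Type) (E : ι → Type) (H : ι → Type)
    [∀ i, NormedAddCommGroup (E i)] [∀ i, NormedSpace ℝ (E i)]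
    [∀ i, FiniteDimensional ℝ (E i)]
    [∀ i, TopologicalSpace (H i)] [∀ i, ChartedSpace (E i) (H i)] [∀ i, Group (H i)]
    [∀ i, LieGroup (modelWithCornersSelf ℝ (E i)) ((⊤ : ℕ∞) : WithTop ℕ∞) (H i)]
    [∀ i, IsTopologicalGroup (H i)]
    (G : Subgroup (∀ i, H i)) [(Subgroup.connectedComponentOfOne G).Normal]
    (hG : IsClosed (G : Set (∀ i, H i)))
    (F : Filter (G ⧸ Subgroup.connectedComponentOfOne G)) (hF : F.NeBot)
    (hc : ∀ U ∈ nhds (1 : G ⧸ Subgroup.connectedComponentOfOne G),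
      ∃ A ∈ F, ∀ x ∈ A, ∀ y ∈ A, x⁻¹ * y ∈ U) :
    ∃ q : G ⧸ Subgroup.connectedComponentOfOne G, F ≤ nhds q := by
  refine normal_case ι E H G hG _ ?_ F hF hc
  have h1 : PreconnectedSpace (Subgroup.connectedComponentOfOne G) :=
    Subtype.preconnectedSpace isPreconnected_connectedComponent
  have h2 : Subsingleton (Subgroup.connectedComponentOfOne G ⧸
      Subgroup.connectedComponentOfOne (Subgroup.connectedComponentOfOne G)) := by
    refine ⟨fun a b => ?_⟩
    obtain ⟨a, rfl⟩ := QuotientGroup.mk_surjective a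
    obtain ⟨b, rfl⟩ := QuotientGroup.mk_surjective b
    refine QuotientGroup.eq.mpr ?_
    change _ ∈ connectedComponent _
    rw [PreconnectedSpace.connectedComponent_eq_univ]
    exact Set.mem_univ _
  infer_instance

end Pool.Agent.Results.MP_7895ba_al.HomogeneousComplete
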